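import Mathlib

set_option autoImplicit false

namespace Pool.Agent.H8SY

/-- left brace as multiplicative group -/
def IsIYB (G : Type) [Group G] : Prop :=
  ∃ (B : Type) (_ : AddCommGroup B) (_ : Group B),
    (∀ a b c : B, a * (b + c) + a = a * b + a * c) ∧ Nonempty (G ≃* B)

theorem IsIYB.of_equiv {G H : Type} [Group G] [Group H] (e : G ≃* H) (h : IsIYB H) : IsIYB G := by
  obtain ⟨B, i1, i2, hB, ⟨f⟩⟩ := h
  exact ⟨B, i1, i2, hB, ⟨e.trans f⟩⟩

/-- the 3-group of order `3^5` -/
@[ext] structure PP where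
  a : ZMod 3
  b : ZMod 3
  c : ZMod 3
  d : ZMod 3
  e : ZMod 3
  deriving DecidableEq, Fintype

instance : Mul PP where
  mul p q := ⟨p.a + q.a, p.b + q.b, p.c + q.c + p.a * q.b - p.b * q.a,
    p.d + q.d - p.a * q.c - p.a * q.b * (p.a + q.a),
    p.e + q.e + p.b * q.c - p.b * q.a * (p.b + q.b)⟩

instance : One PP := ⟨⟨0, 0, 0, 0, 0⟩⟩

instance : Inv PP where
  inv p := ⟨-p.a, -p.b, -p.c, -p.d - p.a * p.c, -p.e + p.b * p.c⟩

theorem mul_a (p q : PP) : (p * q).a = p.a + q.a := rfl
theorem mul_b (p q : PP) : (p * q).b = p.b + q.b := rfl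
theorem mul_c (p q : PP) : (p * q).c = p.c + q.c + p.a * q.b - p.b * q.a := rfl
theorem mul_d (p q : PP) :
    (p * q).d = p.d + q.d - p.a * q.c - p.a * q.b * (p.a + q.a) := rfl
theorem mul_e (p q : PP) :
    (p * q).e = p.e + q.e + p.b * q.c - p.b * q.a * (p.b + q.b) := rfl
theorem one_a : (1 : PP).a = 0 := rfl
theorem one_b : (1 : PP).b = 0 := rfl
theorem one_c : (1 : PP).c = 0 := rfl
theorem one_d : (1 : PP).d = 0 := rfl
theorem one_e : (1 : PP).e = 0 := rfl
theorem inv_a (p : PP) : (p⁻¹).a = -p.a := rfl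
theorem inv_b (p : PP) : (p⁻¹).b = -p.b := rfl
theorem inv_c (p : PP) : (p⁻¹).c = -p.c := rfl
theorem inv_d (p : PP) : (p⁻¹).d = -p.d - p.a * p.c := rfl
theorem inv_e (p : PP) : (p⁻¹).e = -p.e + p.b * p.c := rfl

instance : Group PP :=
  Group.ofLeftAxioms
    (by intro p q r
        apply PP.ext <;> simp only [mul_a, mul_b, mul_c, mul_d, mul_e] <;> ring)
    (by intro p
        apply PP.ext <;> simp only [mul_a, mul_b, mul_c, mul_d, mul_e, one_a, one_b, one_c, one_d,
          one_e] <;> ring)
    (by intro p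
        apply PP.ext <;> simp only [mul_a, mul_b, mul_c, mul_d, mul_e, one_a, one_b, one_c, one_d,
          one_e, inv_a, inv_b, inv_c, inv_d, inv_e] <;> ring)

/-- sign change of the first generator -/
def rr (p : PP) : PP := ⟨-p.a, p.b, -p.c, p.d, -p.e⟩
/-- sign change of the second generator -/
def rr2 (p : PP) : PP := ⟨p.a, -p.b, -p.c, -p.d, p.e⟩
/-- swap of the generators -/
def ss (p : PP) : PP := ⟨p.b, p.a, -p.c, p.e, p.d⟩

theorem rr_mul (p q : PP) : rr (p * q) = rr p * rr q := by
  apply PP.ext <;> simp only [rr, mul_a, mul_b, mul_c, mul_d, mul_e] <;> ring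
theorem rr2_mul (p q : PP) : rr2 (p * q) = rr2 p * rr2 q := by
  apply PP.ext <;> simp only [rr2, mul_a, mul_b, mul_c, mul_d, mul_e] <;> ring
theorem ss_mul (p q : PP) : ss (p * q) = ss p * ss q := by
  apply PP.ext <;> simp only [ss, mul_a, mul_b, mul_c, mul_d, mul_e] <;> ring
theorem rr_rr (p : PP) : rr (rr p) = p := by
  apply PP.ext <;> simp only [rr, neg_neg]
theorem rr2_rr2 (p : PP) : rr2 (rr2 p) = p := by
  apply PP.ext <;> simp only [rr2, neg_neg]
theorem ss_ss (p : PP) : ss (ss p) = p := by
  apply PP.ext <;> simp only [ss, neg_neg]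

/-- raw (brace) coordinates -/
@[ext] structure Raw where
  a : ZMod 3
  b : ZMod 3
  c : ZMod 3
  d : ZMod 3
  e : ZMod 3
  deriving DecidableEq, Fintype

/-- coordinate change -/
def toRaw (p : PP) : Raw :=
  ⟨p.a, p.b, p.c - p.a * p.b, p.d - p.a * p.c - p.a * p.a * p.b, p.e + p.c - p.a * p.b⟩
/-- inverse coordinate change -/
def ofRaw (t : Raw) : PP :=
  ⟨t.a, t.b, t.c + t.a * t.b, t.d + t.a * t.c - t.a * t.a * t.b, t.e - t.c⟩

theorem three0 : (3 : ZMod 3) = 0 := rfl

/-- equivalence -/
def rawEquiv : PP ≃ Raw where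
  toFun := toRaw
  invFun := ofRaw
  left_inv := by
    intro p
    apply PP.ext
    · rfl
    · rfl
    · simp only [toRaw, ofRaw]; ring
    · simp only [toRaw, ofRaw]
      linear_combination (-p.a * p.a * p.b) * three0
    · simp only [toRaw, ofRaw]; ring
  right_inv := by
    intro p
    apply Raw.ext
    · rfl
    · rfl
    · simp only [toRaw, ofRaw]; ring
    · simp only [toRaw, ofRaw]
      linear_combination (-p.a * p.a * p.b) * three0
    · simp only [toRaw, ofRaw]; ring

instance : Add Raw := ⟨fun p q => ⟨p.a + q.a, p.b + q.b, p.c + q.c, p.d + q.d, p.e + q.e⟩⟩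
instance : Zero Raw := ⟨⟨0, 0, 0, 0, 0⟩⟩
instance : Neg Raw := ⟨fun p => ⟨-p.a, -p.b, -p.c, -p.d, -p.e⟩⟩

theorem add_a (p q : Raw) : (p + q).a = p.a + q.a := rfl
theorem add_b (p q : Raw) : (p + q).b = p.b + q.b := rfl
theorem add_c (p q : Raw) : (p + q).c = p.c + q.c := rfl
theorem add_d (p q : Raw) : (p + q).d = p.d + q.d := rfl
theorem add_e (p q : Raw) : (p + q).e = p.e + q.e := rfl
theorem zero_a : (0 : Raw).a = 0 := rfl
theorem zero_b : (0 : Raw).b = 0 := rfl
theorem zero_c : (0 : Raw).c = 0 := rfl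
theorem zero_d : (0 : Raw).d = 0 := rfl
theorem zero_e : (0 : Raw).e = 0 := rfl
theorem neg_a (p : Raw) : (-p).a = -p.a := rfl
theorem neg_b (p : Raw) : (-p).b = -p.b := rfl
theorem neg_c (p : Raw) : (-p).c = -p.c := rfl
theorem neg_d (p : Raw) : (-p).d = -p.d := rfl
theorem neg_e (p : Raw) : (-p).e = -p.e := rfl

instance : AddCommGroup Raw :=
  { AddGroup.ofLeftAxioms (G := Raw)
      (by intro p q r
          apply Raw.ext <;> simp only [add_a, add_b, add_c, add_d, add_e] <;> ring)
      (by intro p
          apply Raw.ext <;> simp only [add_a, add_b, add_c, add_d, add_e, zero_a, zero_b, zero_c,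
            zero_d, zero_e] <;> ring)
      (by intro p
          apply Raw.ext <;> simp only [add_a, add_b, add_c, add_d, add_e, zero_a, zero_b, zero_c,
            zero_d, zero_e, neg_a, neg_b, neg_c, neg_d, neg_e] <;> ring) with
    add_comm := by
      intro p q
      apply Raw.ext <;> simp only [add_a, add_b, add_c, add_d, add_e] <;> ring }

/-- the multiplicative structure on `Raw` transported from `PP` -/
noncomputable instance : Group Raw := rawEquiv.symm.group

/-- formula for the raw product -/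
def rawMul (p q : Raw) : Raw :=
  ⟨p.a + q.a, p.b + q.b, p.c + q.c + p.b * q.a,
    p.d + q.d + p.a * q.c + (p.a * p.b - p.c) * q.a,
    p.e + q.e + p.b * q.c + (p.b - p.b * p.b) * q.a⟩

theorem raw_mul_eq (p q : Raw) : p * q = rawMul p q := by
  have h : p * q = toRaw (ofRaw p * ofRaw q) := rfl
  rw [h]
  apply Raw.ext
  · rfl
  · rfl
  · simp only [toRaw, ofRaw, rawMul, mul_a, mul_b, mul_c, mul_d, mul_e]
    linear_combination (-p.b * q.a) * three0
  · simp only [toRaw, ofRaw, rawMul, mul_a, mul_b, mul_c, mul_d, mul_e]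
    linear_combination (-(p.a * p.b * q.a) - 2 * p.a * q.a * q.b - p.a * q.c - p.a ^ 2 * p.b
      - p.a ^ 2 * q.b - q.a ^ 2 * q.b) * three0
  · simp only [toRaw, ofRaw, rawMul, mul_a, mul_b, mul_c, mul_d, mul_e]
    linear_combination (-(p.b * q.a)) * three0

theorem isIYB_PP : IsIYB PP := by
  refine ⟨Raw, inferInstance, inferInstance, ?_, ⟨?_⟩⟩
  · intro p q t
    rw [raw_mul_eq, raw_mul_eq, raw_mul_eq]
    apply Raw.ext <;> simp only [rawMul, add_a, add_b, add_c, add_d, add_e] <;> ring
  · exact { rawEquiv with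
      map_mul' := by
        intro p q
        show rawEquiv (p * q) = rawEquiv (rawEquiv.symm (rawEquiv p) * rawEquiv.symm (rawEquiv q))
        rw [Equiv.symm_apply_apply, Equiv.symm_apply_apply] }

/-- the dihedral group of order 8 as signed permutations -/
@[ext] structure EE where
  i : Bool
  j : Bool
  k : Bool
  deriving DecidableEq, Fintype

instance : Mul EE where
  mul g h := ⟨xor g.i (if g.k then h.j else h.i), xor g.j (if g.k then h.i else h.j), xor g.k h.k⟩
instance : One EE := ⟨⟨false, false, false⟩⟩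
instance : Inv EE where
  inv g := ⟨if g.k then g.j else g.i, if g.k then g.i else g.j, g.k⟩

instance : Group EE :=
  Group.ofLeftAxioms (by decide) (by decide) (by decide)

/-- additive structure on the same set -/
@[ext] structure EA where
  i : Bool
  j : Bool
  k : Bool
  deriving DecidableEq, Fintype

instance : Mul EA where
  mul g h := ⟨xor g.i (if g.k then h.j else h.i), xor g.j (if g.k then h.i else h.j), xor g.k h.k⟩
instance : One EA := ⟨⟨false, false, false⟩⟩
instance : Inv EA where
  inv g := ⟨if g.k then g.j else g.i, if g.k then g.i else g.j, g.k⟩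

instance : Group EA :=
  Group.ofLeftAxioms (by decide) (by decide) (by decide)

instance : Add EA where
  add g h := ⟨xor g.i h.i, xor g.j h.j, xor g.k h.k⟩
instance : Zero EA := ⟨⟨false, false, false⟩⟩
instance : Neg EA := ⟨fun g => g⟩

instance : AddCommGroup EA :=
  { AddGroup.ofLeftAxioms (G := EA) (by decide) (by decide) (by decide) with
    add_comm := by decide }

theorem isIYB_EE : IsIYB EE := by
  refine ⟨EA, inferInstance, inferInstance, by decide, ⟨?_⟩⟩
  exact
    { toFun := fun g => ⟨g.i, g.j, g.k⟩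
      invFun := fun g => ⟨g.i, g.j, g.k⟩
      left_inv := fun _ => rfl
      right_inv := fun _ => rfl
      map_mul' := fun _ _ => rfl }

/-- sign -/
def sg (b : Bool) : ZMod 3 := if b then -1 else 1

/-- action of signed permutations on `PP` -/
def act (g : EE) (p : PP) : PP :=
  match g with
  | ⟨i, j, k⟩ =>
    let p' := if k then ss p else p
    let p'' := if j then rr2 p' else p'
    if i then rr p'' else p''

theorem act_mul (g : EE) (p q : PP) : act g (p * q) = act g p * act g q := by
  obtain ⟨i, j, k⟩ := g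
  cases i <;> cases j <;> cases k <;> simp [act, rr_mul, rr2_mul, ss_mul]

theorem act_act (g h : EE) (p : PP) : act (g * h) p = act g (act h p) := by
  obtain ⟨i, j, k⟩ := g
  obtain ⟨i', j', k'⟩ := h
  have e : (⟨i, j, k⟩ : EE) * ⟨i', j', k'⟩
    = ⟨xor i (if k then j' else i'), xor j (if k then i' else j'), xor k k'⟩ := rfl
  rw [e]
  cases i <;> cases j <;> cases k <;> cases i' <;> cases j' <;> cases k' <;>
    simp [act, rr, rr2, ss]

theorem act_one (p : PP) : act 1 p = p := rfl

/-- the action as a homomorphism -/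
def φ : EE →* MulAut PP where
  toFun g :=
    { toFun := act g
      invFun := act g⁻¹
      left_inv := fun p => by rw [← act_act, inv_mul_cancel, act_one]
      right_inv := fun p => by rw [← act_act, mul_inv_cancel, act_one]
      map_mul' := act_mul g }
  map_one' := by
    apply MulEquiv.ext
    intro p
    rfl
  map_mul' g h := by
    apply MulEquiv.ext
    intro p
    exact act_act g h p

theorem φ_apply (g : EE) (p : PP) : φ g p = act g p := rfl

/-- the group of order 1944 -/
abbrev GG : Type := PP ⋊[φ] EE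

theorem card_PP : Nat.card PP = 243 := by
  rw [Nat.card_eq_fintype_card]; rfl
theorem card_EE : Nat.card EE = 8 := by
  rw [Nat.card_eq_fintype_card]; rfl
theorem card_GG : Nat.card GG = 1944 := by
  rw [SemidirectProduct.card, card_PP, card_EE]

end Pool.Agent.H8SY
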