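import Pool.Agent.H8SY.Grp

set_option autoImplicit false

namespace Pool.Agent.H8SY

universe u v

theorem E_add {M : Type v} [AddCommGroup M] (f g : AddMonoid.End M) (m : M) :
    (f + g) m = f m + g m := rfl
theorem E_sub {M : Type v} [AddCommGroup M] (f g : AddMonoid.End M) (m : M) :
    (f - g) m = f m - g m := rfl
theorem E_mul {M : Type v} [AddCommGroup M] (f g : AddMonoid.End M) (m : M) :
    (f * g) m = f (g m) := rfl
theorem E_one {M : Type v} [AddCommGroup M] (m : M) : (1 : AddMonoid.End M) m = m := rfl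

/-- a nonzero functional on a finite nontrivial abelian 3-group -/
theorem exists_hom {A : Type v} [AddCommGroup A] [Finite A] (hA : ∃ k : ℕ, Nat.card A = 3 ^ k)
    (hne : Nontrivial A) : ∃ χ : A →+ ZMod 3, χ ≠ 0 := by
  obtain ⟨k, hk⟩ := hA
  have h3 : Fact (Nat.Prime 3) := ⟨Nat.prime_three⟩
  have hk0 : k ≠ 0 := by
    rintro rfl
    rw [pow_zero, Nat.card_eq_one_iff_unique] at hk
    exact not_subsingleton A hk.1
  obtain ⟨a, ha⟩ := exists_prime_addOrderOf_dvd_card' (G := A) 3 (by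
    rw [hk]; exact dvd_pow_self 3 hk0)
  have ha3 : 3 • a = 0 := by rw [← ha]; exact addOrderOf_nsmul_eq_zero a
  have ha0 : a ≠ 0 := by
    rintro rfl
    rw [addOrderOf_zero] at ha
    norm_num at ha
  let f : A →+ A := nsmulAddMonoidHom 3
  have hf : ∀ x, f x = 3 • x := fun _ => rfl
  have hnot : ¬ Function.Surjective f := by
    intro hs
    have hi := Finite.injective_iff_surjective.2 hs
    apply ha0
    apply hi
    rw [hf, hf, ha3, smul_zero]
  obtain ⟨b, hb⟩ : ∃ b, b ∉ f.range := by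
    by_contra hcon
    push Not at hcon
    exact hnot (fun b => hcon b)
  let Q := A ⧸ f.range
  have hQ : ∀ x : Q, 3 • x = 0 := by
    intro x
    obtain ⟨y, rfl⟩ := QuotientAddGroup.mk_surjective x
    rw [← QuotientAddGroup.mk_nsmul, QuotientAddGroup.eq_zero_iff]
    exact ⟨y, rfl⟩
  letI : Module (ZMod 3) Q := AddCommGroup.zmodModule (n := 3) hQ
  have hb' : (QuotientAddGroup.mk b : Q) ≠ 0 := by
    rw [Ne, QuotientAddGroup.eq_zero_iff]; exact hb
  obtain ⟨g, hg⟩ : ∃ g : Module.Dual (ZMod 3) Q, g (QuotientAddGroup.mk b : Q) ≠ 0 := by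
    by_contra hcon
    push Not at hcon
    exact hb' ((Module.forall_dual_apply_eq_zero_iff (ZMod 3) _).1 hcon)
  refine ⟨g.toAddMonoidHom.comp (QuotientAddGroup.mk' f.range), ?_⟩
  intro h
  apply hg
  have := congrArg (fun t : A →+ ZMod 3 => t b) h
  exact this

theorem exists_inv {Γ : Type u} [Group Γ] [Finite Γ] (hΓ : IsPGroup 3 Γ) {A : Type v}
    [AddCommGroup A] [Finite A] (hA : ∃ k : ℕ, Nat.card A = 3 ^ k) (hne : Nontrivial A)
    (T : Γ →* AddMonoid.End A) :
    ∃ χ : A →+ ZMod 3, χ ≠ 0 ∧ ∀ g a, χ (T g a) = χ a := by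
  have h3 : Fact (Nat.Prime 3) := ⟨Nat.prime_three⟩
  obtain ⟨χ0, hχ0⟩ := exists_hom hA hne
  let X := A →+ ZMod 3
  have : Finite X := Finite.of_injective (fun f : X => (f : A → ZMod 3)) DFunLike.coe_injective
  letI act : MulAction Γ X :=
    { smul := fun g χ => χ.comp (T g⁻¹ : A →+ A)
      one_smul := by
        intro χ
        apply AddMonoidHom.ext
        intro a
        show χ (T 1⁻¹ a) = χ a
        rw [inv_one, map_one]; rfl
      mul_smul := by
        intro g h χ
        apply AddMonoidHom.ext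
        intro a
        show χ (T (g * h)⁻¹ a) = χ (T h⁻¹ (T g⁻¹ a))
        rw [mul_inv_rev, map_mul]; rfl }
  have hsm : ∀ (g : Γ) (χ : X) (a : A), (g • χ) a = χ (T g⁻¹ a) := fun _ _ _ => rfl
  have hcard : 3 ∣ Nat.card X := by
    have hp : IsPGroup 3 (Multiplicative X) := by
      intro x
      refine ⟨1, ?_⟩
      apply Multiplicative.toAdd.injective
      apply AddMonoidHom.ext
      intro a
      show (3 ^ 1 • (Multiplicative.toAdd x)) a = 0
      rw [pow_one, AddMonoidHom.nsmul_apply, nsmul_eq_mul]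
      have : ((3 : ℕ) : ZMod 3) = 0 := rfl
      rw [this, zero_mul]
    obtain ⟨m, hm⟩ := IsPGroup.iff_card.1 hp
    have hm' : Nat.card X = 3 ^ m := hm
    have hm0 : m ≠ 0 := by
      rintro rfl
      rw [pow_zero, Nat.card_eq_one_iff_unique] at hm'
      exact hχ0 (hm'.1.elim _ _)
    rw [hm']; exact dvd_pow_self 3 hm0
  have h0 : (0 : X) ∈ MulAction.fixedPoints Γ X := by
    intro g
    apply AddMonoidHom.ext
    intro a
    rfl
  obtain ⟨χ, hχ, hne'⟩ := hΓ.exists_fixed_point_of_prime_dvd_card_of_fixed_point X hcard h0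
  refine ⟨χ, fun h => hne' h.symm, fun g a => ?_⟩
  have := hχ g⁻¹
  have e := congrArg (fun t : X => t a) this
  simp only [hsm, inv_inv] at e
  exact e

/-- version on a stable subgroup, with a function defined on the whole group -/
theorem exists_inv' {Γ : Type u} [Group Γ] [Finite Γ] (hΓ : IsPGroup 3 Γ) {M : Type v}
    [AddCommGroup M] [Finite M] (hM : ∃ k : ℕ, Nat.card M = 3 ^ k)
    (T : Γ →* AddMonoid.End M) (S : AddSubgroup M) (hS : ∀ g, ∀ m ∈ S, T g m ∈ S)
    (hne : ∃ m ∈ S, m ≠ 0) :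
    ∃ χ : M → ZMod 3, (∀ m ∈ S, ∀ m' ∈ S, χ (m + m') = χ m + χ m') ∧
      (∀ g, ∀ m ∈ S, χ (T g m) = χ m) ∧ ∃ m ∈ S, χ m ≠ 0 := by
  classical
  have h3 : Fact (Nat.Prime 3) := ⟨Nat.prime_three⟩
  obtain ⟨k, hk⟩ := hM
  have hS3 : ∃ j : ℕ, Nat.card S = 3 ^ j := by
    have hd : Nat.card S ∣ 3 ^ k := by rw [← hk]; exact AddSubgroup.card_addSubgroup_dvd_card S
    obtain ⟨j, _, hj⟩ := (Nat.dvd_prime_pow Nat.prime_three).1 hd
    exact ⟨j, hj⟩
  have hnt : Nontrivial S := by
    obtain ⟨m, hm, hm0⟩ := hne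
    exact ⟨⟨⟨m, hm⟩, 0, fun h => hm0 (congrArg Subtype.val h)⟩⟩
  let TS : Γ →* AddMonoid.End S :=
    { toFun := fun g => AddMonoidHom.mk' (fun m : S => (⟨T g m, hS g m m.2⟩ : S)) (by
        intro a b
        apply Subtype.ext
        show T g (a + b : M) = T g a + T g b
        rw [map_add])
      map_one' := by
        apply AddMonoidHom.ext
        intro a
        apply Subtype.ext
        show T 1 (a : M) = a
        rw [map_one]; rfl
      map_mul' := by
        intro g h
        apply AddMonoidHom.ext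
        intro a
        apply Subtype.ext
        show T (g * h) (a : M) = T g (T h a)
        rw [map_mul]; rfl }
  obtain ⟨χ, hχ0, hχ⟩ := exists_inv hΓ hS3 hnt TS
  refine ⟨fun m => if h : m ∈ S then χ ⟨m, h⟩ else 0, ?_, ?_, ?_⟩
  · intro m hm m' hm'
    simp only [hm, hm', S.add_mem hm hm', dite_true]
    rw [← map_add]; rfl
  · intro g m hm
    simp only [hm, hS g m hm, dite_true]
    exact hχ g ⟨m, hm⟩
  · by_contra hcon
    push Not at hcon
    apply hχ0
    apply AddMonoidHom.ext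
    intro m
    have := hcon m m.2
    simp only [m.2, dite_true] at this
    exact this

end Pool.Agent.H8SY
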