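import Pool.Agent.H8SY.Inv

set_option autoImplicit false

namespace Pool.Agent.H8SY

universe u v

def xx (t : ZMod 3) : PP := ⟨t, 0, 0, 0, 0⟩
def yy (t : ZMod 3) : PP := ⟨0, t, 0, 0, 0⟩
def nn (c d e : ZMod 3) : PP := ⟨0, 0, c, d, e⟩

theorem xx_add (s t : ZMod 3) : xx (s + t) = xx s * xx t := by
  apply PP.ext <;> simp [xx, mul_a, mul_b, mul_c, mul_d, mul_e]
theorem yy_add (s t : ZMod 3) : yy (s + t) = yy s * yy t := by
  apply PP.ext <;> simp [yy, mul_a, mul_b, mul_c, mul_d, mul_e]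
theorem nn_mul (c d e c' d' e' : ZMod 3) :
    nn c d e * nn c' d' e' = nn (c + c') (d + d') (e + e') := by
  apply PP.ext <;> simp [nn, mul_a, mul_b, mul_c, mul_d, mul_e]

theorem decomp (p : PP) : p = xx p.a * yy p.b * nn (p.c - p.a * p.b)
    (p.d + p.a * p.a * p.b + p.a * (p.c - p.a * p.b)) (p.e - p.b * (p.c - p.a * p.b)) := by
  apply PP.ext <;> simp only [xx, yy, nn, mul_a, mul_b, mul_c, mul_d, mul_e] <;> ring

theorem zlin (θ : ZMod 3 → ZMod 3) (h : ∀ s t, θ (s + t) = θ s + θ t) (t : ZMod 3) :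
    θ t = θ 1 * t := by
  have h0 : θ 0 = 0 := by
    have := h 0 0
    rw [add_zero] at this
    exact left_eq_add.1 this
  have h2 : θ 2 = θ 1 + θ 1 := h 1 1
  have hc : t = 0 ∨ t = 1 ∨ t = 2 := by revert t; decide
  rcases hc with rfl | rfl | rfl
  · rw [h0, mul_zero]
  · rw [mul_one]
  · rw [h2]; ring

def KK : PP := nn 2 1 2

theorem rel_K : xx 1 * yy 1 = (yy 1 * xx 1) * KK := by decide
theorem rel_V : nn 1 0 0 * xx 1 = (xx 1 * nn 1 0 0) * nn 0 1 0 := by decide
theorem rel_W : nn 1 0 0 * yy 1 = (yy 1 * nn 1 0 0) * nn 0 0 2 := by decide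
theorem not_comm : KK * xx 1 ≠ xx 1 * KK := by decide

theorem sq_one {x : ZMod 3} (h : x ≠ 0) : x * x = 1 := by revert x; decide
theorem two_mul_zero {x : ZMod 3} (h : -x = x) : x = 0 := by revert x; decide

/-- form of functions additive on `nn` -/
theorem nn_form (F : PP → ZMod 3)
    (h : ∀ c d e c' d' e', F (nn c d e * nn c' d' e') = F (nn c d e) + F (nn c' d' e'))
    (c d e : ZMod 3) :
    F (nn c d e) = F (nn 1 0 0) * c + F (nn 0 1 0) * d + F (nn 0 0 1) * e := by
  have e1 : nn c d e = nn c 0 0 * nn 0 d 0 * nn 0 0 e := by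
    simp only [nn_mul, add_zero, zero_add]
  have e2 : F (nn c 0 0 * nn 0 d 0 * nn 0 0 e) = F (nn c 0 0) + F (nn 0 d 0) + F (nn 0 0 e) := by
    rw [nn_mul, h, ← h c 0 0 0 d 0, nn_mul]
  rw [e1, e2]
  have l1 := zlin (fun t => F (nn t 0 0)) (fun s t => by
    have := h s 0 0 t 0 0
    rw [nn_mul, add_zero] at this
    exact this) c
  have l2 := zlin (fun t => F (nn 0 t 0)) (fun s t => by
    have := h 0 s 0 0 t 0
    rw [nn_mul, add_zero] at this
    exact this) d
  have l3 := zlin (fun t => F (nn 0 0 t)) (fun s t => by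
    have := h 0 0 s 0 0 t
    rw [nn_mul, add_zero] at this
    exact this) e
  rw [l1, l2, l3]

/-- homomorphisms `PP → ZMod 3` -/
theorem hom_form (χ : PP → ZMod 3) (h : ∀ p q, χ (p * q) = χ p + χ q) (p : PP) :
    χ p = χ (xx 1) * p.a + χ (yy 1) * p.b := by
  have hn := nn_form χ (fun _ _ _ _ _ _ => h _ _)
  have hV : χ (nn 0 1 0) = 0 := by
    have := congrArg χ rel_V
    rw [h, h, h, add_comm (χ (nn 1 0 0))] at this
    exact left_eq_add.1 this
  have hW : χ (nn 0 0 1) = 0 := by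
    have := congrArg χ rel_W
    rw [h, h, h, add_comm (χ (nn 1 0 0))] at this
    have h2 : χ (nn 0 0 2) = 0 := left_eq_add.1 this
    rw [hn] at h2
    have h3 : χ (nn 0 0 1) * 2 = 0 := by simpa using h2
    rcases mul_eq_zero.1 h3 with h4 | h4
    · exact h4
    · exact absurd h4 (by decide)
  have hU : χ (nn 1 0 0) = 0 := by
    have := congrArg χ rel_K
    rw [h, h, h, add_comm (χ (xx 1))] at this
    have h2 : χ KK = 0 := left_eq_add.1 this
    rw [KK, hn, hV, hW] at h2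
    have h3 : χ (nn 1 0 0) * 2 = 0 := by simpa using h2
    rcases mul_eq_zero.1 h3 with h4 | h4
    · exact h4
    · exact absurd h4 (by decide)
  conv_lhs => rw [decomp p]
  rw [h, h, hn, hU, hV, hW]
  have l1 := zlin (fun t => χ (xx t)) (fun s t => by
    show χ (xx (s + t)) = _
    rw [xx_add, h]) p.a
  have l2 := zlin (fun t => χ (yy t)) (fun s t => by
    show χ (yy (s + t)) = _
    rw [yy_add, h]) p.b
  rw [l1, l2]; ring

section
variable {M : Type v} [AddCommGroup M]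

theorem add_on_zero {S : AddSubgroup M} {f : M → ZMod 3}
    (h : ∀ m ∈ S, ∀ m' ∈ S, f (m + m') = f m + f m') : f 0 = 0 := by
  have := h 0 S.zero_mem 0 S.zero_mem
  rw [add_zero] at this
  exact left_eq_add.1 this

theorem add_on_sub {S : AddSubgroup M} {f : M → ZMod 3}
    (h : ∀ m ∈ S, ∀ m' ∈ S, f (m + m') = f m + f m') {m m' : M} (hm : m ∈ S) (hm' : m' ∈ S) :
    f (m - m') = f m - f m' := by
  have := h (m - m') (S.sub_mem hm hm') m' hm'
  rw [sub_add_cancel] at this
  rw [this]; ring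

theorem add_on_nsmul {S : AddSubgroup M} {f : M → ZMod 3}
    (h : ∀ m ∈ S, ∀ m' ∈ S, f (m + m') = f m + f m') {m : M} (hm : m ∈ S) (n : ℕ) :
    f (n • m) = n * f m := by
  induction n with
  | zero => rw [zero_smul, add_on_zero h]; simp
  | succ n ih =>
    rw [succ_nsmul, h _ (S.nsmul_mem hm n) _ hm, ih]; push_cast; ring

/-- The key lemma: no brace-type structure on `PP` is compatible with `rr` and `ss`. -/
theorem key [Finite M] (T : PP →* AddMonoid.End M) (π : PP → M)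
    (hπ : ∀ g h, π (g * h) = π g + T g (π h)) (bij : Function.Bijective π)
    (R S : AddMonoid.End M) (hR : ∀ p, π (rr p) = R (π p)) (hS : ∀ p, π (ss p) = S (π p)) :
    False := by
  obtain ⟨σ, hσ1, hσ2⟩ : ∃ σ : M → PP, (∀ m, π (σ m) = m) ∧ ∀ p, σ (π p) = p := by
    refine ⟨Function.surjInv bij.2, Function.surjInv_eq bij.2, fun p => ?_⟩
    exact bij.1 (Function.surjInv_eq bij.2 (π p))
  have hcard : Nat.card M = 3 ^ 5 := by
    rw [← Nat.card_congr (Equiv.ofBijective π bij), card_PP]; norm_num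
  have hPP : IsPGroup 3 PP := IsPGroup.of_card (n := 5) (by rw [card_PP]; norm_num)
  have π1 : π 1 = 0 := by
    have := hπ 1 1
    rw [mul_one, map_one, E_one] at this
    exact left_eq_add.1 this
  have hTR : ∀ g m, R (T g m) = T (rr g) (R m) := by
    intro g m
    have e1 : T g (π (σ m)) = π (g * σ m) - π g := by rw [hπ]; abel
    rw [← hσ1 m, e1, map_sub, ← hR, ← hR, ← hR, rr_mul, hπ]; abel
  have hTS : ∀ g m, S (T g m) = T (ss g) (S m) := by
    intro g m
    have e1 : T g (π (σ m)) = π (g * σ m) - π g := by rw [hπ]; abel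
    rw [← hσ1 m, e1, map_sub, ← hS, ← hS, ← hS, ss_mul, hπ]; abel
  -- Step 1
  have hAB : (∀ m m', (σ (m + m')).a = (σ m).a + (σ m').a) ∧
      (∀ m m', (σ (m + m')).b = (σ m).b + (σ m').b) := by
    obtain ⟨χ, h1, h2, m0, _, h3⟩ := exists_inv' hPP ⟨5, hcard⟩ T ⊤
      (fun _ _ _ => AddSubgroup.mem_top _)
      ⟨π (xx 1), AddSubgroup.mem_top _, fun h => by
        rw [← π1] at h
        have := bij.1 h
        revert this; decide⟩
    have hχ : ∀ m m', χ (m + m') = χ m + χ m' := fun m m' =>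
      h1 m (AddSubgroup.mem_top _) m' (AddSubgroup.mem_top _)
    have hf := hom_form (fun p => χ (π p)) (fun p q => by
      show χ (π (p * q)) = χ (π p) + χ (π q)
      rw [hπ, hχ, h2 _ _ (AddSubgroup.mem_top _)])
    set α := χ (π (xx 1)) with hα
    set β := χ (π (yy 1)) with hβ
    have hval : ∀ m, χ m = α * (σ m).a + β * (σ m).b := by
      intro m
      have := hf (σ m)
      rwa [hσ1] at this
    have hvalR : ∀ m, χ (R m) = -(α * (σ m).a) + β * (σ m).b := by
      intro m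
      have := hf (rr (σ m))
      rw [hR, hσ1] at this
      rw [this]
      simp only [rr]; ring
    have hSa : ∀ m, (σ (S m)).b = (σ m).a := by
      intro m
      have : S m = π (ss (σ m)) := by rw [hS, hσ1]
      rw [this, hσ2]; rfl
    have hSb : ∀ m, (σ (S m)).a = (σ m).b := by
      intro m
      have : S m = π (ss (σ m)) := by rw [hS, hσ1]
      rw [this, hσ2]; rfl
    by_cases hβ0 : β = 0
    · have hα0 : α ≠ 0 := by
        intro h
        apply h3
        rw [hval, h, hβ0]; ring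
      have hα2 := sq_one hα0
      have ha : ∀ m, (σ m).a = 2 * α * (χ m - χ (R m)) := by
        intro m
        rw [hval, hvalR, hβ0]
        linear_combination (-(4 * (σ m).a)) * hα2 - (σ m).a * three0
      have hadd : ∀ m m', (σ (m + m')).a = (σ m).a + (σ m').a := by
        intro m m'
        rw [ha, ha m, ha m', map_add, hχ, hχ]; ring
      refine ⟨hadd, fun m m' => ?_⟩
      rw [← hSb, ← hSb, ← hSb, map_add, hadd]
    · have hβ2 := sq_one hβ0
      have hb : ∀ m, (σ m).b = 2 * β * (χ m + χ (R m)) := by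
        intro m
        rw [hval, hvalR]
        linear_combination (-(4 * (σ m).b)) * hβ2 - (σ m).b * three0
      have hadd : ∀ m m', (σ (m + m')).b = (σ m).b + (σ m').b := by
        intro m m'
        rw [hb, hb m, hb m', map_add, hχ, hχ]; ring
      refine ⟨fun m m' => ?_, hadd⟩
      rw [← hSa, ← hSa, ← hSa, map_add, hadd]
  obtain ⟨hA, hB⟩ := hAB
  have hA' : ∀ m ∈ (⊤ : AddSubgroup M), ∀ m' ∈ (⊤ : AddSubgroup M),
      (σ (m + m')).a = (σ m).a + (σ m').a := fun m _ m' _ => hA m m'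
  have hB' : ∀ m ∈ (⊤ : AddSubgroup M), ∀ m' ∈ (⊤ : AddSubgroup M),
      (σ (m + m')).b = (σ m).b + (σ m').b := fun m _ m' _ => hB m m'
  have hAsub : ∀ m m', (σ (m - m')).a = (σ m).a - (σ m').a := fun m m' =>
    add_on_sub (f := fun m => (σ m).a) hA' (AddSubgroup.mem_top _) (AddSubgroup.mem_top _)
  have hBsub : ∀ m m', (σ (m - m')).b = (σ m).b - (σ m').b := fun m m' =>
    add_on_sub (f := fun m => (σ m).b) hB' (AddSubgroup.mem_top _) (AddSubgroup.mem_top _)
  have hAT : ∀ g m, (σ (T g m)).a = (σ m).a := by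
    intro g m
    have e1 : T g m = π (g * σ m) - π g := by rw [hπ, hσ1]; abel
    rw [e1, hAsub, hσ2, hσ2, mul_a]; ring
  have hBT : ∀ g m, (σ (T g m)).b = (σ m).b := by
    intro g m
    have e1 : T g m = π (g * σ m) - π g := by rw [hπ, hσ1]; abel
    rw [e1, hBsub, hσ2, hσ2, mul_b]; ring
  -- S2
  let S2 : AddSubgroup M :=
    { carrier := {m | (σ m).a = 0 ∧ (σ m).b = 0}
      add_mem' := by
        rintro x y ⟨h1, h2⟩ ⟨h3, h4⟩
        exact ⟨by rw [hA, h1, h3, add_zero], by rw [hB, h2, h4, add_zero]⟩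
      zero_mem' := by
        constructor
        · rw [← π1, hσ2]; rfl
        · rw [← π1, hσ2]; rfl
      neg_mem' := by
        rintro x ⟨h1, h2⟩
        constructor
        · have := hAsub 0 x
          rw [zero_sub, ← π1, hσ2] at this
          rw [this, h1]; rfl
        · have := hBsub 0 x
          rw [zero_sub, ← π1, hσ2] at this
          rw [this, h2]; rfl }
  have mS2 : ∀ m, m ∈ S2 ↔ (σ m).a = 0 ∧ (σ m).b = 0 := fun _ => Iff.rfl
  have mS2n : ∀ c d e, π (nn c d e) ∈ S2 := by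
    intro c d e; rw [mS2, hσ2]; exact ⟨rfl, rfl⟩
  have mS2T : ∀ g, ∀ m ∈ S2, T g m ∈ S2 := by
    rintro g m ⟨h1, h2⟩
    exact ⟨by rw [hAT, h1], by rw [hBT, h2]⟩
  have mS2d : ∀ g m, T g m - m ∈ S2 := by
    intro g m
    exact ⟨by rw [hAsub, hAT, sub_self], by rw [hBsub, hBT, sub_self]⟩
  have S2form : ∀ m ∈ S2, m = π (nn (σ m).c (σ m).d (σ m).e) := by
    rintro m ⟨h1, h2⟩
    have : σ m = nn (σ m).c (σ m).d (σ m).e := by
      apply PP.ext
      · exact h1
      · exact h2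
      · rfl
      · rfl
      · rfl
    rw [← this, hσ1]
  -- Step 2
  have hC : (∀ m ∈ S2, ∀ m' ∈ S2, (σ (m + m')).c = (σ m).c + (σ m').c) ∧
      (∀ g, ∀ m ∈ S2, (σ (T g m)).c = (σ m).c) := by
    obtain ⟨ψ, h1, h2, m0, hm0, h3⟩ := exists_inv' hPP ⟨5, hcard⟩ T S2 mS2T
      ⟨π (nn 1 0 0), mS2n _ _ _, fun h => by
        rw [← π1] at h
        have := bij.1 h
        revert this; decide⟩
    have hN := nn_form (fun p => ψ (π p)) (fun c d e c' d' e' => by
      show ψ (π (nn c d e * nn c' d' e')) = ψ (π (nn c d e)) + ψ (π (nn c' d' e'))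
      rw [hπ, h1 _ (mS2n _ _ _) _ (mS2T _ _ (mS2n _ _ _)), h2 _ _ (mS2n _ _ _)])
    have hβ : ∀ z, ∀ c d e, ψ (T (nn c d e) (π z) - π z) = 0 := by
      intro z c d e
      have := hom_form (fun g => ψ (T g (π z) - π z)) (fun g h => by
        show ψ (T (g * h) (π z) - π z) = ψ (T g (π z) - π z) + ψ (T h (π z) - π z)
        have e1 : T (g * h) (π z) - π z = (T g (π z) - π z) + T g (T h (π z) - π z) := by
          rw [map_mul, E_mul, map_sub]; abel
        rw [e1, h1 _ (mS2d _ _) _ (mS2T _ _ (mS2d _ _)), h2 _ _ (mS2d _ _)]) (nn c d e)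
      rw [this]; simp [nn]
    have hcm : ∀ z : PP, ∀ d e : ZMod 3, nn 1 0 0 * z = (z * nn 1 0 0) * nn 0 d e →
        ψ (π (nn 0 d e)) = 0 := by
      intro z d e hz
      have e1 := congrArg π hz
      rw [hπ, hπ (z * nn 1 0 0), hπ z] at e1
      have e2 : T (z * nn 1 0 0) (π (nn 0 d e))
          = (T (nn 1 0 0) (π z) - π z) - (T z (π (nn 1 0 0)) - π (nn 1 0 0)) := by
        have : T (z * nn 1 0 0) (π (nn 0 d e))
          = (π (nn 1 0 0) + T (nn 1 0 0) (π z)) - (π z + T z (π (nn 1 0 0))) := by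
          rw [e1]; abel
        rw [this]; abel
      have e3 := congrArg ψ e2
      rw [h2 _ _ (mS2n _ _ _), add_on_sub h1 (mS2d _ _) (mS2d _ _), hβ,
        add_on_sub h1 (mS2T _ _ (mS2n _ _ _)) (mS2n _ _ _), h2 _ _ (mS2n _ _ _)] at e3
      rw [e3]; ring
    have hV : ψ (π (nn 0 1 0)) = 0 := hcm _ _ _ rel_V
    have hW : ψ (π (nn 0 0 1)) = 0 := by
      have h4 : ψ (π (nn 0 0 2)) = 0 := hcm _ _ _ rel_W
      rw [hN] at h4
      have h5 : ψ (π (nn 0 0 1)) * 2 = 0 := by simpa using h4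
      rcases mul_eq_zero.1 h5 with h6 | h6
      · exact h6
      · exact absurd h6 (by decide)
    have hval : ∀ m ∈ S2, ψ m = ψ (π (nn 1 0 0)) * (σ m).c := by
      intro m hm
      have e := hN (σ m).c (σ m).d (σ m).e
      rw [← S2form m hm, hV, hW] at e
      rw [e]; ring
    have hκ : ψ (π (nn 1 0 0)) ≠ 0 := by
      intro h
      apply h3
      rw [hval m0 hm0, h, zero_mul]
    have hκ2 := sq_one hκ
    have hc : ∀ m ∈ S2, (σ m).c = ψ (π (nn 1 0 0)) * ψ m := by
      intro m hm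
      rw [hval m hm, ← mul_assoc, hκ2, one_mul]
    refine ⟨fun m hm m' hm' => ?_, fun g m hm => ?_⟩
    · rw [hc _ (S2.add_mem hm hm'), hc _ hm, hc _ hm', h1 _ hm _ hm']; ring
    · rw [hc _ (mS2T _ _ hm), hc _ hm, h2 _ _ hm]
  obtain ⟨hC, hCT⟩ := hC
  have hCsub : ∀ m ∈ S2, ∀ m' ∈ S2, (σ (m - m')).c = (σ m).c - (σ m').c := fun m hm m' hm' =>
    add_on_sub (f := fun m => (σ m).c) hC hm hm'
  -- S3
  let S3 : AddSubgroup M :=
    { carrier := {m | m ∈ S2 ∧ (σ m).c = 0}
      add_mem' := by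
        rintro x y ⟨h1, h2⟩ ⟨h3, h4⟩
        exact ⟨S2.add_mem h1 h3, by rw [hC _ h1 _ h3, h2, h4, add_zero]⟩
      zero_mem' := ⟨S2.zero_mem, by rw [← π1, hσ2]; rfl⟩
      neg_mem' := by
        rintro x ⟨h1, h2⟩
        refine ⟨S2.neg_mem h1, ?_⟩
        have := hCsub 0 S2.zero_mem x h1
        rw [zero_sub, ← π1, hσ2] at this
        rw [this, h2]; rfl }
  have mS3 : ∀ m, m ∈ S3 ↔ m ∈ S2 ∧ (σ m).c = 0 := fun _ => Iff.rfl
  have mS3n : ∀ d e, π (nn 0 d e) ∈ S3 := by
    intro d e; rw [mS3, hσ2]; exact ⟨mS2n _ _ _, rfl⟩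
  have mS3T : ∀ g, ∀ m ∈ S3, T g m ∈ S3 := by
    rintro g m ⟨h1, h2⟩
    exact ⟨mS2T _ _ h1, by rw [hCT _ _ h1, h2]⟩
  have S3form : ∀ m ∈ S3, m = π (nn 0 (σ m).d (σ m).e) := by
    rintro m ⟨h1, h2⟩
    have := S2form m h1
    rw [h2] at this
    exact this
  -- Step 3
  have hfix : ∀ g, ∀ m ∈ S3, T g m = m := by
    obtain ⟨ρ, h1, h2, m0, hm0, h3⟩ := exists_inv' hPP ⟨5, hcard⟩ T S3 mS3T
      ⟨π (nn 0 1 0), mS3n _ _, fun h => by
        rw [← π1] at h
        have := bij.1 h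
        revert this; decide⟩
    have hRm : ∀ m ∈ S3, R m = π (nn 0 (σ m).d (-(σ m).e)) := by
      intro m hm
      conv_lhs => rw [S3form m hm]
      rw [← hR]; simp [rr, nn]
    have hSm : ∀ m ∈ S3, S m = π (nn 0 (σ m).e (σ m).d) := by
      intro m hm
      conv_lhs => rw [S3form m hm]
      rw [← hS]; simp [ss, nn]
    have mS3R : ∀ m ∈ S3, R m ∈ S3 := fun m hm => by rw [hRm m hm]; exact mS3n _ _
    have mS3S : ∀ m ∈ S3, S m ∈ S3 := fun m hm => by rw [hSm m hm]; exact mS3n _ _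
    have hform : ∀ d e, ρ (π (nn 0 d e)) = ρ (π (nn 0 1 0)) * d + ρ (π (nn 0 0 1)) * e := by
      intro d e
      have key1 : ∀ d e d' e', ρ (π (nn 0 (d + d') (e + e')))
          = ρ (π (nn 0 d e)) + ρ (π (nn 0 d' e')) := by
        intro d e d' e'
        have e1 : nn 0 (d + d') (e + e') = nn 0 d e * nn 0 d' e' := by
          rw [nn_mul, add_zero]
        rw [e1, hπ, h1 _ (mS3n _ _) _ (mS3T _ _ (mS3n _ _)), h2 _ _ (mS3n _ _)]
      have l1 := zlin (fun t => ρ (π (nn 0 t 0))) (fun s t => by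
        have := key1 s 0 t 0
        rw [add_zero] at this
        exact this) d
      have l2 := zlin (fun t => ρ (π (nn 0 0 t))) (fun s t => by
        have := key1 0 s 0 t
        rw [add_zero] at this
        exact this) e
      have := key1 d 0 0 e
      rw [add_zero, zero_add] at this
      rw [this, l1, l2]
    set α := ρ (π (nn 0 1 0)) with hα
    set β := ρ (π (nn 0 0 1)) with hβ
    have hval : ∀ m ∈ S3, ρ m = α * (σ m).d + β * (σ m).e := by
      intro m hm
      rw [← hform, ← S3form m hm]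
    have hvalR : ∀ m ∈ S3, ρ (R m) = α * (σ m).d - β * (σ m).e := by
      intro m hm
      rw [hRm m hm, hform]; ring
    have hRT : ∀ g, ∀ m ∈ S3, ρ (R (T g m)) = ρ (R m) := by
      intro g m hm
      rw [hTR, h2 _ _ (mS3R m hm)]
    have hSd : ∀ m ∈ S3, (σ (S m)).d = (σ m).e := by
      intro m hm; rw [hSm m hm, hσ2]; rfl
    have hSe : ∀ m ∈ S3, (σ (S m)).e = (σ m).d := by
      intro m hm; rw [hSm m hm, hσ2]; rfl
    have hde : ∀ g, ∀ m ∈ S3, (σ (T g m)).d = (σ m).d ∧ (σ (T g m)).e = (σ m).e := by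
      by_cases hα0 : α = 0
      · have hβ0 : β ≠ 0 := by
          intro h
          apply h3
          rw [hval m0 hm0, h, hα0]; ring
        have hβ2 := sq_one hβ0
        have he : ∀ m ∈ S3, (σ m).e = 2 * β * (ρ m - ρ (R m)) := by
          intro m hm
          rw [hval m hm, hvalR m hm]
          linear_combination (-(4 * (σ m).e)) * hβ2 - (σ m).e * three0
        have heT : ∀ g, ∀ m ∈ S3, (σ (T g m)).e = (σ m).e := by
          intro g m hm
          rw [he _ (mS3T g m hm), he m hm, h2 _ _ hm, hRT g m hm]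
        intro g m hm
        refine ⟨?_, heT g m hm⟩
        rw [← hSe _ (mS3T g m hm), hTS, heT _ _ (mS3S m hm), hSe m hm]
      · have hα2 := sq_one hα0
        have hd : ∀ m ∈ S3, (σ m).d = 2 * α * (ρ m + ρ (R m)) := by
          intro m hm
          rw [hval m hm, hvalR m hm]
          linear_combination (-(4 * (σ m).d)) * hα2 - (σ m).d * three0
        have hdT : ∀ g, ∀ m ∈ S3, (σ (T g m)).d = (σ m).d := by
          intro g m hm
          rw [hd _ (mS3T g m hm), hd m hm, h2 _ _ hm, hRT g m hm]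
        intro g m hm
        refine ⟨hdT g m hm, ?_⟩
        rw [← hSd _ (mS3T g m hm), hTS, hdT _ _ (mS3S m hm), hSd m hm]
    intro g m hm
    rw [S3form _ (mS3T g m hm), (hde g m hm).1, (hde g m hm).2, ← S3form m hm]
  -- Step 4
  have mS2R : ∀ m ∈ S2, (σ (R m)).c = - (σ m).c := by
    intro m hm
    have e1 : R m = π (rr (nn (σ m).c (σ m).d (σ m).e)) := by rw [hR, ← S2form m hm]
    rw [e1, hσ2]; rfl
  have mS2S : ∀ m ∈ S2, (σ (S m)).c = - (σ m).c := by
    intro m hm
    have e1 : S m = π (ss (nn (σ m).c (σ m).d (σ m).e)) := by rw [hS, ← S2form m hm]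
    rw [e1, hσ2]; rfl
  let al : PP → M → ZMod 3 := fun g m => (σ (T g m - m)).c
  have al_def : ∀ g m, al g m = (σ (T g m - m)).c := fun _ _ => rfl
  have al_add : ∀ g m m', al g (m + m') = al g m + al g m' := by
    intro g m m'
    have e : T g (m + m') - (m + m') = (T g m - m) + (T g m' - m') := by rw [map_add]; abel
    rw [al_def, e, hC _ (mS2d _ _) _ (mS2d _ _)]
  have al_S2 : ∀ g, ∀ m ∈ S2, al g m = 0 := by
    intro g m hm
    rw [al_def, hCsub _ (mS2T _ _ hm) _ hm, hCT _ _ hm, sub_self]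
  have al_mul : ∀ g h m, al (g * h) m = al g m + al h m := by
    intro g h m
    have e1 : T (g * h) m - m = (T g m - m) + T g (T h m - m) := by
      rw [map_mul, E_mul, map_sub]; abel
    rw [al_def, e1, hC _ (mS2d _ _) _ (mS2T _ _ (mS2d _ _)), hCT _ _ (mS2d _ _)]
  have al_R : ∀ g m, al (rr g) (R m) = - al g m := by
    intro g m
    rw [al_def, ← hTR, ← map_sub, mS2R _ (mS2d _ _)]
  have al_S : ∀ g m, al (ss g) (S m) = - al g m := by
    intro g m
    rw [al_def, ← hTS, ← map_sub, mS2S _ (mS2d _ _)]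
  have al_one : ∀ m, al 1 m = 0 := by
    intro m
    have := al_mul 1 1 m
    rw [mul_one] at this
    exact left_eq_add.1 this
  have alXX : al (xx 1) (π (xx 1)) = 0 := by
    have hinv : xx 1 * rr (xx 1) = 1 := by decide
    have e1 := al_R (xx 1) (π (xx 1))
    rw [← hR] at e1
    have e2 : al (rr (xx 1)) (π (rr (xx 1))) = - al (xx 1) (π (rr (xx 1))) := by
      have := al_mul (xx 1) (rr (xx 1)) (π (rr (xx 1)))
      rw [hinv, al_one] at this
      rw [eq_neg_iff_add_eq_zero, add_comm]; exact this.symm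
    have e3 : al (xx 1) (π (rr (xx 1))) = - al (xx 1) (π (xx 1)) := by
      have h1 : π (xx 1) + π (rr (xx 1)) ∈ S2 := by
        rw [mS2, hA, hB, hσ2, hσ2]; decide
      have := al_S2 (xx 1) _ h1
      rw [al_add] at this
      rw [eq_neg_iff_add_eq_zero, add_comm]; exact this
    rw [e2, e3, neg_neg] at e1
    exact two_mul_zero e1.symm
  have alXY : al (xx 1) (π (yy 1)) = - al (yy 1) (π (xx 1)) := by
    have e1 := al_S (yy 1) (π (xx 1))
    rw [← hS] at e1
    exact e1
  -- Step 5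
  have hTn : ∀ g, ∀ m ∈ S2, T g m = m + (σ m).c.val • (T g (π (nn 1 0 0)) - π (nn 1 0 0)) := by
    intro g m hm
    have h1 : m - (σ m).c.val • π (nn 1 0 0) ∈ S3 := by
      rw [mS3]
      have h2 : (σ m).c.val • π (nn 1 0 0) ∈ S2 := S2.nsmul_mem (mS2n _ _ _) _
      refine ⟨S2.sub_mem hm h2, ?_⟩
      rw [hCsub _ hm _ h2]
      have := add_on_nsmul (f := fun m => (σ m).c) hC (mS2n 1 0 0) (σ m).c.val
      simp only [hσ2] at this
      rw [this, ZMod.natCast_zmod_val]
      simp [nn]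
    have h3 := hfix g _ h1
    rw [map_sub, map_nsmul] at h3
    have h4 : T g m = (T g m - (σ m).c.val • T g (π (nn 1 0 0)))
        + (σ m).c.val • T g (π (nn 1 0 0)) := by abel
    rw [h4, h3, nsmul_sub]; abel
  let dd : PP → M := fun g => T g (π (xx 1)) - π (xx 1)
  have dd_def : ∀ g, dd g = T g (π (xx 1)) - π (xx 1) := fun _ => rfl
  have dd_mul : ∀ g h, dd (g * h) = dd g + dd h
      + (al h (π (xx 1))).val • (T g (π (nn 1 0 0)) - π (nn 1 0 0)) := by
    intro g h
    have e1 : dd (g * h) = dd g + T g (dd h) := by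
      rw [dd_def, dd_def, dd_def, map_mul, E_mul, map_sub]; abel
    rw [e1, hTn g (dd h) (mS2d _ _), ← add_assoc]
  have hKa : ∀ m, al KK m = 0 := by
    intro m
    have := hom_form (fun g => al g m) (fun g h => al_mul g h m) KK
    rw [this]; simp [KK, nn]
  have e1 : dd KK = (al (yy 1) (π (xx 1))).val • (T (xx 1) (π (nn 1 0 0)) - π (nn 1 0 0)) := by
    have h1 := dd_mul (xx 1) (yy 1)
    have h2 := dd_mul (yy 1) (xx 1)
    have h3 := dd_mul (yy 1 * xx 1) KK
    rw [← rel_K, h1, h2, alXX, hKa] at h3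
    rw [ZMod.val_zero, zero_smul, add_zero, zero_smul, add_zero, add_comm (dd (yy 1))] at h3
    exact (add_left_cancel h3).symm
  have hKS2 : π KK ∈ S2 := mS2n _ _ _
  have e2 : (σ (π KK)).c = al (yy 1) (π (xx 1)) := by
    have h1 := congrArg π rel_K
    rw [hπ, hπ (yy 1 * xx 1), hπ (yy 1)] at h1
    have h2 : T (yy 1 * xx 1) (π KK)
        = (T (xx 1) (π (yy 1)) - π (yy 1)) - (T (yy 1) (π (xx 1)) - π (xx 1)) := by
      have : T (yy 1 * xx 1) (π KK)
          = (π (xx 1) + T (xx 1) (π (yy 1))) - (π (yy 1) + T (yy 1) (π (xx 1))) := by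
        rw [h1]; abel
      rw [this]; abel
    have h3 := congrArg (fun m => (σ m).c) h2
    rw [hCT _ _ hKS2, hCsub _ (mS2d _ _) _ (mS2d _ _), ← al_def, ← al_def, alXY] at h3
    rw [h3]
    linear_combination (-(al (yy 1) (π (xx 1)))) * three0
  apply not_comm
  apply bij.1
  rw [hπ, hπ]
  have e3 : T KK (π (xx 1)) = π (xx 1) + dd KK := by rw [dd_def]; abel
  rw [e3, e1, hTn (xx 1) (π KK) hKS2, e2]
  abel

end

end Pool.Agent.H8SY
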