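import Pool.Agent.H8SY.Key

set_option autoImplicit false

namespace Pool.Agent.H8SY

open SemidirectProduct

theorem fac_card : (1944 : ℕ).factorization 2 = 3 ∧ (1944 : ℕ).factorization 3 = 5 ∧
    ∀ p, p.Prime → p ≠ 2 → p ≠ 3 → (1944 : ℕ).factorization p = 0 := by
  have h : (1944 : ℕ) = 2 ^ 3 * 3 ^ 5 := by norm_num
  have hf : (1944 : ℕ).factorization = Finsupp.single 2 3 + Finsupp.single 3 5 := by
    rw [h, Nat.factorization_mul (by norm_num) (by norm_num), Nat.Prime.factorization_pow
      Nat.prime_two, Nat.Prime.factorization_pow Nat.prime_three]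
  rw [hf]
  refine ⟨?_, ?_, ?_⟩
  · simp
  · simp
  · intro p _ h2 h3
    simp [h2.symm, h3.symm]

instance : Finite GG := by
  apply Nat.finite_of_card_ne_zero
  rw [card_GG]; norm_num

theorem card_inl : Nat.card (inl : PP →* GG).range = 243 := by
  rw [← card_PP]
  exact (Nat.card_congr (MonoidHom.ofInjective (inl_injective (φ := φ))).toEquiv).symm

theorem card_inr : Nat.card (inr : EE →* GG).range = 8 := by
  rw [← card_EE]
  exact (Nat.card_congr (MonoidHom.ofInjective (inr_injective (φ := φ))).toEquiv).symm

theorem not_IYB : ¬ IsIYB GG := by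
  rintro ⟨B, iA, iG, hbr, ⟨e⟩⟩
  have h10 : (1 : B) = 0 := by
    have := hbr 1 0 0
    simpa using this
  have hBfin : Finite B := Finite.of_equiv GG e.toEquiv
  have hBcard : Nat.card B = 1944 := by rw [← card_GG]; exact (Nat.card_congr e.toEquiv).symm
  have hlaw : ∀ a b c : B, a * (b + c) = a * b - a + a * c := by
    intro a b c
    have := hbr a b c
    have h2 : a * (b + c) = a * b + a * c - a := eq_sub_of_add_eq this
    rw [h2]; abel
  let lam : B →* AddMonoid.End B :=
    { toFun := fun a => AddMonoidHom.mk' (fun b => a * b - a) (fun b c => by rw [hlaw]; abel)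
      map_one' := by
        apply AddMonoidHom.ext
        intro c
        show 1 * c - 1 = c
        rw [one_mul, h10, sub_zero]
      map_mul' := by
        intro a b
        apply AddMonoidHom.ext
        intro c
        show a * b * c - a * b = a * (b * c - b) - a
        have h : a * (b * c) = a * (b * c - b) - a + a * b := by
          rw [← hlaw]; congr 1; abel
        rw [mul_assoc, h]; abel }
  have lam_def : ∀ a b, lam a b = a * b - a := fun _ _ => rfl
  have mul_eq : ∀ a b : B, a * b = a + lam a b := by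
    intro a b; rw [lam_def]; abel
  have lam_inv : ∀ a b, lam a⁻¹ (lam a b) = b := by
    intro a b
    rw [← E_mul, ← map_mul, inv_mul_cancel, map_one, E_one]
  have htot : ∀ b : B, 1944 • b = 0 := by
    intro b; rw [← hBcard]; exact card_nsmul_eq_zero'
  -- torsion subgroups
  let A : ℕ → AddSubgroup B := fun n =>
    { carrier := {b | n • b = 0}
      add_mem' := by
        intro a b ha hb
        show n • (a + b) = 0
        rw [nsmul_add, ha, hb, add_zero]
      zero_mem' := nsmul_zero n
      neg_mem' := by
        intro a ha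
        show n • (-a) = 0
        rw [smul_neg, ha, neg_zero] }
  have mA : ∀ n b, b ∈ A n ↔ n • b = 0 := fun _ _ => Iff.rfl
  have lamA : ∀ n a, ∀ b ∈ A n, lam a b ∈ A n := by
    intro n a b hb
    rw [mA, ← map_nsmul, (mA _ _).1 hb, map_zero]
  let H : ℕ → Subgroup B := fun n =>
    { carrier := {b | b ∈ A n}
      mul_mem' := by
        intro a b ha hb
        show a * b ∈ A n
        rw [mul_eq]; exact (A n).add_mem ha (lamA _ _ _ hb)
      one_mem' := by
        show (1 : B) ∈ A n
        rw [h10]; exact (A n).zero_mem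
      inv_mem' := by
        intro a ha
        show a⁻¹ ∈ A n
        have h1 := mul_eq a a⁻¹
        rw [mul_inv_cancel, h10] at h1
        have h2 : lam a a⁻¹ = -a := (neg_eq_of_add_eq_zero_right h1.symm).symm
        rw [← lam_inv a a⁻¹, h2]
        exact lamA _ _ _ ((A n).neg_mem ha) }
  have mH : ∀ n b, b ∈ H n ↔ b ∈ A n := fun _ _ => Iff.rfl
  have hint : ∀ b, b ∈ A 243 → b ∈ A 8 → b = 0 := by
    intro b h1 h2
    rw [mA] at h1 h2
    have : (3 * 243) • b = b + (91 * 8) • b := by
      have : 3 * 243 = 1 + 91 * 8 := by norm_num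
      rw [this, add_smul, one_smul]
    rw [mul_smul, h1, smul_zero, mul_smul, h2, smul_zero, add_zero] at this
    exact this.symm
  have hcards : Nat.card (A 243) = 243 ∧ Nat.card (A 8) = 8 := by
    have hbij : Function.Bijective (fun z : A 243 × A 8 => (z.1 : B) + (z.2 : B)) := by
      constructor
      · rintro ⟨x, y⟩ ⟨x', y'⟩ h
        simp only at h
        have h1 : (x : B) - x' = y' - y := by
          rw [sub_eq_sub_iff_add_eq_add, h, add_comm]
        have h2 : (x : B) - x' = 0 := hint _ ((A 243).sub_mem x.2 x'.2) (by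
          rw [h1]; exact (A 8).sub_mem y'.2 y.2)
        have h3 : x = x' := Subtype.ext (sub_eq_zero.1 h2)
        rw [h2] at h1
        have h4 : y = y' := (Subtype.ext (sub_eq_zero.1 h1.symm)).symm
        rw [h3, h4]
      · intro b
        refine ⟨⟨⟨-((91 * 8) • b), ?_⟩, ⟨(3 * 243) • b, ?_⟩⟩, ?_⟩
        · rw [mA, smul_neg, smul_smul]
          have : 243 * (91 * 8) = 91 * 1944 := by norm_num
          rw [this, mul_smul, htot, smul_zero, neg_zero]
        · rw [mA, smul_smul]
          have : 8 * (3 * 243) = 3 * 1944 := by norm_num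
          rw [this, mul_smul, htot, smul_zero]
        · show -((91 * 8) • b) + (3 * 243) • b = b
          have : 3 * 243 = 1 + 91 * 8 := by norm_num
          rw [this, add_smul, one_smul]; abel
    have hprod : Nat.card (A 243) * Nat.card (A 8) = 3 ^ 5 * 2 ^ 3 := by
      rw [← Nat.card_prod, Nat.card_congr (Equiv.ofBijective _ hbij), hBcard]; norm_num
    have hp3 : Fact (Nat.Prime 3) := ⟨Nat.prime_three⟩
    obtain ⟨k, hk⟩ : ∃ k, Nat.card (A 243) = 3 ^ k := by
      have hp : IsPGroup 3 (Multiplicative (A 243)) := by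
        intro x
        refine ⟨5, ?_⟩
        apply Multiplicative.toAdd.injective
        apply Subtype.ext
        show ((3 ^ 5 • (Multiplicative.toAdd x) : A 243) : B) = 0
        rw [AddSubgroup.coe_nsmul]
        have := (mA _ _).1 (Multiplicative.toAdd x).2
        have e3 : (3 : ℕ) ^ 5 = 243 := by norm_num
        rw [e3]
        exact this
      obtain ⟨m, hm⟩ := IsPGroup.iff_card.1 hp
      exact ⟨m, hm⟩
    obtain ⟨l, hl⟩ : ∃ l, Nat.card (A 8) = 2 ^ l := by
      have hp : IsPGroup 2 (Multiplicative (A 8)) := by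
        intro x
        refine ⟨3, ?_⟩
        apply Multiplicative.toAdd.injective
        apply Subtype.ext
        show ((2 ^ 3 • (Multiplicative.toAdd x) : A 8) : B) = 0
        rw [AddSubgroup.coe_nsmul]
        have := (mA _ _).1 (Multiplicative.toAdd x).2
        have e3 : (2 : ℕ) ^ 3 = 8 := by norm_num
        rw [e3]
        exact this
      obtain ⟨m, hm⟩ := IsPGroup.iff_card.1 hp
      exact ⟨m, hm⟩
    rw [hk, hl] at hprod ⊢
    have hcop : ∀ i j : ℕ, Nat.Coprime (3 ^ i) (2 ^ j) := fun i j =>
      Nat.Coprime.pow _ _ (by norm_num)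
    have h1 : 3 ^ k = 3 ^ 5 := by
      apply Nat.dvd_antisymm
      · exact (hcop k 3).dvd_of_dvd_mul_right (by rw [← hprod]; exact dvd_mul_right _ _)
      · exact (hcop 5 l).dvd_of_dvd_mul_right (by rw [hprod]; exact dvd_mul_right _ _)
    have h2 : 2 ^ l = 2 ^ 3 := by
      rw [h1] at hprod
      exact Nat.eq_of_mul_eq_mul_left (by norm_num) hprod
    rw [h1, h2]; norm_num
  obtain ⟨c3, c2⟩ := hcards
  -- pull back to GG
  let H' : ℕ → Subgroup GG := fun n => (H n).comap e.toMonoidHom
  have mH' : ∀ n g, g ∈ H' n ↔ e g ∈ A n := fun _ _ => Iff.rfl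
  have cH' : ∀ n, Nat.card (H' n) = Nat.card (A n) := by
    intro n
    refine Nat.card_congr
      { toFun := fun g => ⟨e g, g.2⟩
        invFun := fun b => ⟨e.symm b, by
          rw [mH', e.apply_symm_apply]; exact b.2⟩
        left_inv := fun g => Subtype.ext (e.symm_apply_apply _)
        right_inv := fun b => Subtype.ext (e.apply_symm_apply _) }
  have hle : H' 243 ≤ (inl : PP →* GG).range := by
    intro g hg
    have h1 : g ^ 243 = 1 := by
      have h2 : (⟨g, hg⟩ : H' 243) ^ Nat.card (H' 243) = 1 := pow_card_eq_one'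
      rw [cH', c3] at h2
      have h5 := congrArg (Subgroup.subtype (H' 243)) h2
      rw [map_pow, map_one] at h5
      exact h5
    have h3 : g.right ^ 243 = 1 := by
      have := congrArg (rightHom : GG →* EE) h1
      rw [map_pow, map_one] at this
      exact this
    have h4 : g.right ^ 8 = 1 := by
      have : g.right ^ Nat.card EE = 1 := pow_card_eq_one'
      rwa [card_EE] at this
    have h5 : g.right = 1 := by
      have d1 := orderOf_dvd_of_pow_eq_one h3
      have d2 := orderOf_dvd_of_pow_eq_one h4
      have d3 := Nat.dvd_gcd d1 d2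
      have d4 : Nat.gcd 243 8 = 1 := by norm_num
      rw [d4] at d3
      exact orderOf_eq_one_iff.1 (Nat.dvd_one.1 d3)
    refine ⟨g.left, ?_⟩
    apply SemidirectProduct.ext
    · rfl
    · exact h5.symm
  have hH3 : H' 243 = (inl : PP →* GG).range := by
    apply Subgroup.eq_of_le_of_card_ge hle
    rw [card_inl, cH', c3]
  have hp2 : Fact (Nat.Prime 2) := ⟨Nat.prime_two⟩
  let P1 : Sylow 2 GG := Sylow.ofCard (inr : EE →* GG).range (by
    rw [card_inr, card_GG, fac_card.1]; norm_num)
  let P2 : Sylow 2 GG := Sylow.ofCard (H' 8) (by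
    rw [cH', c2, card_GG, fac_card.1]; norm_num)
  obtain ⟨g, hg⟩ := MulAction.exists_smul_eq GG P1 P2
  have hconj : ∀ x : EE, g * inr x * g⁻¹ ∈ H' 8 := by
    intro x
    have h1 : MulAut.conj g • (inr x : GG) ∈ (g • P1 : Sylow 2 GG) := by
      rw [Sylow.smul_def]
      exact Subgroup.smul_mem_pointwise_smul _ _ _ ⟨x, rfl⟩
    rw [hg] at h1
    exact h1
  have hN : ∀ p : PP, g * inl p * g⁻¹ ∈ H' 243 := by
    intro p
    rw [hH3]
    have hnorm : (inl : PP →* GG).range.Normal := by
      rw [SemidirectProduct.range_inl_eq_ker_rightHom]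
      infer_instance
    exact hnorm.conj_mem _ ⟨p, rfl⟩ g
  let f : PP → B := fun p => e (g * inl p * g⁻¹)
  have f_def : ∀ p, f p = e (g * inl p * g⁻¹) := fun _ => rfl
  have f_mem : ∀ p, f p ∈ A 243 := fun p => hN p
  have f_mul : ∀ p q, f (p * q) = f p * f q := by
    intro p q
    rw [f_def, f_def, f_def, ← map_mul, map_mul inl]
    congr 1; group
  let res : B → AddMonoid.End (A 243) := fun a =>
    AddMonoidHom.mk' (fun m : A 243 => (⟨lam a m, lamA _ _ _ m.2⟩ : A 243)) (by
      intro x y
      apply Subtype.ext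
      show lam a (x + y : B) = lam a x + lam a y
      rw [map_add])
  have res_def : ∀ a (m : A 243), (res a m : B) = lam a m := fun _ _ => rfl
  let T : PP →* AddMonoid.End (A 243) :=
    { toFun := fun p => res (f p)
      map_one' := by
        apply AddMonoidHom.ext
        intro m
        apply Subtype.ext
        show lam (f 1) (m : B) = m
        have : f 1 = 1 := by
          rw [f_def, map_one]
          have : g * 1 * g⁻¹ = 1 := by group
          rw [this, map_one]
        rw [this, map_one]; rfl
      map_mul' := by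
        intro p q
        apply AddMonoidHom.ext
        intro m
        apply Subtype.ext
        show lam (f (p * q)) (m : B) = lam (f p) (lam (f q) m)
        rw [f_mul, map_mul]; rfl }
  let π : PP → A 243 := fun p => ⟨f p, f_mem p⟩
  have hπ : ∀ p q, π (p * q) = π p + T p (π q) := by
    intro p q
    apply Subtype.ext
    show f (p * q) = f p + lam (f p) (f q)
    rw [f_mul, mul_eq]
  have hinj : Function.Injective π := by
    intro p q h
    have h1 : f p = f q := congrArg Subtype.val h
    have h2 := e.injective h1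
    have h3 : (inl p : GG) = inl q := by
      have := congrArg (fun t => g⁻¹ * t * g) h2
      have e1 : ∀ x : GG, g⁻¹ * (g * x * g⁻¹) * g = x := by intro x; group
      rwa [e1, e1] at this
    exact inl_injective h3
  have hbij : Function.Bijective π := by
    rw [Nat.bijective_iff_injective_and_card]
    exact ⟨hinj, by rw [card_PP, c3]⟩
  have hconjlam : ∀ q ∈ A 8, ∀ x ∈ A 243, q * x * q⁻¹ ∈ A 243 → lam q x = q * x * q⁻¹ := by
    intro q hq x hx hx'
    set x' := q * x * q⁻¹ with hx'def
    have h1 : q * x = x' * q := by rw [hx'def]; group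
    rw [mul_eq, mul_eq x' q] at h1
    have h2 : lam q x - x' = lam x' q - q := by
      rw [sub_eq_sub_iff_add_eq_add, add_comm (lam q x), h1, add_comm]
    have h3 : lam q x - x' = 0 := hint _ ((A 243).sub_mem (lamA _ _ _ hx) hx') (by
      rw [h2]; exact (A 8).sub_mem (lamA _ _ _ hq) hq)
    exact sub_eq_zero.1 h3
  have hact : ∀ (x : EE) (p : PP), π (φ x p) = res (e (g * inr x * g⁻¹)) (π p) := by
    intro x p
    apply Subtype.ext
    show f (φ x p) = lam (e (g * inr x * g⁻¹)) (f p)
    have h1 : f (φ x p) = e (g * inr x * g⁻¹) * f p * (e (g * inr x * g⁻¹))⁻¹ := by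
      rw [f_def, f_def, inl_aut, ← map_inv e, ← map_mul, ← map_mul]
      congr 1
      rw [map_inv]; group
    have hq8 : e (g * inr x * g⁻¹) ∈ A 8 := hconj x
    rw [hconjlam _ hq8 _ (f_mem p) (by rw [← h1]; exact f_mem _), h1]
  refine key T π hπ hbij (res (e (g * inr ⟨true, false, false⟩ * g⁻¹)))
    (res (e (g * inr ⟨false, false, true⟩ * g⁻¹))) (fun p => ?_) (fun p => ?_)
  · exact hact ⟨true, false, false⟩ p
  · exact hact ⟨false, false, true⟩ p

theorem isIYB_of_subsingleton (G : Type) [Group G] [Subsingleton G] : IsIYB G := by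
  refine ⟨PUnit, inferInstance, inferInstance, fun _ _ _ => Subsingleton.elim _ _, ⟨?_⟩⟩
  exact
    { toFun := fun _ => PUnit.unit
      invFun := fun _ => 1
      left_inv := fun _ => Subsingleton.elim _ _
      right_inv := fun _ => rfl
      map_mul' := fun _ _ => rfl }

theorem sylow_IYB (p : ℕ) [hp : Fact p.Prime] (S : Sylow p GG) : IsIYB S := by
  by_cases h3 : p = 3
  · subst h3
    let P : Sylow 3 GG := Sylow.ofCard (inl : PP →* GG).range (by
      rw [card_inl, card_GG, fac_card.2.1]; norm_num)
    have e1 : S ≃* P := Sylow.equiv S P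
    have e2 : P ≃* PP := (MonoidHom.ofInjective (inl_injective (φ := φ))).symm
    exact IsIYB.of_equiv (e1.trans e2) isIYB_PP
  by_cases h2 : p = 2
  · subst h2
    let P : Sylow 2 GG := Sylow.ofCard (inr : EE →* GG).range (by
      rw [card_inr, card_GG, fac_card.1]; norm_num)
    have e1 : S ≃* P := Sylow.equiv S P
    have e2 : P ≃* EE := (MonoidHom.ofInjective (inr_injective (φ := φ))).symm
    exact IsIYB.of_equiv (e1.trans e2) isIYB_EE
  · have hc : Nat.card S = 1 := by
      rw [S.card_eq_multiplicity, card_GG, fac_card.2.2 p hp.out h2 h3, pow_zero]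
    have : Subsingleton S := (Nat.card_eq_one_iff_unique.1 hc).1
    exact isIYB_of_subsingleton S

theorem solvable_GG : Group.IsSolvable GG := by
  have h3 : Fact (Nat.Prime 3) := ⟨Nat.prime_three⟩
  have h2 : Fact (Nat.Prime 2) := ⟨Nat.prime_two⟩
  have hPP : IsPGroup 3 PP := IsPGroup.of_card (n := 5) (by rw [card_PP]; norm_num)
  have hEE : IsPGroup 2 EE := IsPGroup.of_card (n := 3) (by rw [card_EE]; norm_num)
  have n1 : Group.IsNilpotent PP := hPP.isNilpotent
  have n2 : Group.IsNilpotent EE := hEE.isNilpotent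
  have s1 : Group.IsSolvable PP := inferInstance
  have s2 : Group.IsSolvable EE := inferInstance
  exact Group.isSolvable_of_ker_le_range (inl : PP →* GG) (rightHom : GG →* EE)
    (le_of_eq (SemidirectProduct.range_inl_eq_ker_rightHom (φ := φ)).symm)

end Pool.Agent.H8SY
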